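import Pool.Agent.K3h9.GI.Bar4

/-!
# A worst-case to average-case reduction for graph isomorphism

`GraphIso` is the graph isomorphism problem, as a language of bit strings. A heuristic (`Heur`)
gets two adjacency matrices and random bits, and it answers `some true` (isomorphic), `some false`
(not isomorphic) or `none`; `Poly f` says that it runs in polynomial time on a Turing machine. It
is errorless if the answers `some true` and `some false` are always correct. `failSet f n v m` is
the set of all pairs (graph `G` on `n` vertices, `m` random bits) such that `f` with these random
bits is not right on all pairs `(G', H)`, where `G'` is obtained from `G` by changing some of the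
pairs which meet a set `S` of at most `v` vertices (corrupted vertices).

The theorem: if for a uniformly random graph `G` on `n` vertices and random bits this happens with
probability at most `2 ^ (- a n)` for `v = v n`, where `n * v n + a n ≥ n ^ (1 + ε)` (and
`a n ≥ 2`), then graph isomorphism is in `BPP`; if the heuristic is errorless, then graph
isomorphism is in `ZPP`. In particular (`v = 0`) the worst case reduces to the average case with
failure probability `2 ^ (- n ^ (1 + ε))`, and (`a = 2`) to heuristics which with
probability `3 / 4` tolerate `n ^ ε` corrupted vertices of a random graph. On the other hand there
are deterministic errorless polynomial-time heuristics with `v n = C log₂ n` and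
`a n = C n log₂ n`, for every `C` (the hand-in `SmoothedAnalysis`).

Proof. In a random graph `R` on `n = poly (s)` vertices replace the pairs at the first `2 s + 2`
vertices, so that the first `s` vertices become a component `X` and the next `s + 2` vertices are
adjacent to all vertices outside `X`. Then `X` is the set of the vertices of degree at most `s`.
For a given `X` the resulting graph is a uniformly random element of a set with a
fraction `2 ^ (- (2 s + 2) n)` of all graphs.
-/

set_option autoImplicit false

namespace Pool.Agent.Results.MP_f1a348_lc.FailureBarrier

open Pool.Agent.NPC Pool.Agent.K3h9.GI

theorem result (f : (List (List Bool) × List (List Bool)) × List Bool → Option Bool) (hf : Poly f)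
    (q : Polynomial ℕ) (ε : ℝ) (hε : 0 < ε) (v a : ℕ → ℕ) (n₀ : ℕ)
    (h : ∀ n ≥ n₀, 2 ≤ a n ∧ (n : ℝ) ^ (1 + ε) ≤ n * v n + a n ∧
      2 ^ a n * (failSet f n (v n) (q.eval n)).ncard ≤
        Nat.card (SimpleGraph (Fin n) × (Fin (q.eval n) → Bool))) :
    InBPP GraphIso ∧ (Errorless f → InZPP GraphIso) :=
  barrier f hf q ε hε v a n₀ h

end Pool.Agent.Results.MP_f1a348_lc.FailureBarrier
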