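import Pool.Agent.K3h40.RC.Types2

/-!
# Isomorphism of random graphs with prescribed symmetry

There are a number `K ≤ 1632`, a constant `C` and a deterministic polynomial-time algorithm `f`
(a Turing machine running in polynomial time on the codes of pairs of adjacency matrices) such
that the answers `some true` (isomorphic) and `some false` (not isomorphic) of `f` are correct for
all pairs of graphs, and such that the following holds.

* Let a finite group `G` act semiregularly (only the identity has fixed points) on a finite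
  nonempty set `V`, and put `N = max (|G|, |V| / |G|)`. Then all but a fraction `C * 2 ^ (-N ^ (1/4))`
  of the graphs on `V` which are invariant under `G` are good. For `V = G` these are the Cayley
  graphs of `G`, and `N = |G|`; for `|G| = 1` these are all graphs on `V`, and `N = |V|`; in
  general `N ≥ |V| ^ (1/2)`.
* For every finite group `G`, all but a fraction `C * 2 ^ (-|G| ^ (1/4) / 2)` of the isomorphism
  types of Cayley graphs of `G` are good.

Here a graph is good if

* it has `K` vertices `v 1, …, v K` such that every vertex `x` is determined by the numbers of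
  common neighbours of `x`, `v i` and `v j` (so individualisation of the `K` vertices and two
  rounds of colour refinement give all vertices different colours);
* the `(K + 1)`-dimensional Weisfeiler-Leman algorithm distinguishes it from every graph which is
  not isomorphic to it;
* the algorithm `f` does not fail on `(Δ, H)` if `Δ` is isomorphic to it, for every graph `H`.

Outline. Let `x ≠ y` be vertices and `b, b'` two further vertices. If a suitable orbit `c` of
pairs is added to the graph, the difference of the numbers of common neighbours of `x, b, b'` and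
of `y, b, b'` changes by an amount which depends only on a bounded number of other orbits and is
not constant. For `k` random pairs `b, b'` one finds many such orbits `c` which have disjoint
sets of relevant orbits, also for different pairs; a decoupling argument (Cauchy-Schwarz in the
orbits `c`) shows that the probability that none of the `k` pairs separates `x` and `y` is at most
`(C / √u) ^ (k / 2)` with `u` a power of `N`, although the same orbits `c` are used for all the
pairs. So high moments of the number of pairs `b, b'` which do not separate `x` and `y` are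
small, and outside an event of probability `2 ^ (-N ^ (1/4))` all `x ≠ y` are separated by all but a
fraction `N ^ (-1/50)` of the pairs. Then a bounded number of pairs separates all `x ≠ y`. For
large `G` the selection uses that each `h ≠ 1` of a finite group has at most `3 n / 4` square
roots, that four elements resolve all pairs of elements up to inversion, and that few products
have many solutions of the equations `r ^ 2 = a` and `r a r⁻¹ = d`.
-/

set_option autoImplicit false

namespace Pool.Agent.Results.MP_f1a348_lc.RandomSymmetricGraphs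

open Pool.Agent.NPC
open Pool.Agent.NPC.R671 (adjMatrix)
open Pool.Agent.W893.PR (WLEquiv)
open Pool.Agent.K3h40.RC (common)

/-- `Γ` is invariant under the action of `G` on its vertices. For the action of `G` on itself by
left multiplication the invariant graphs are the Cayley graphs of `G`. -/
def Invariant (G : Type) {V : Type} [Group G] [MulAction G V] (Γ : SimpleGraph V) : Prop :=
  ∀ (g : G) (u w : V), Γ.Adj u w → Γ.Adj (g • u) (g • w)

/-- The properties of a graph with respect to the number `K` and the algorithm `f`. -/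
def Good {V : Type} [Fintype V] (K : ℕ) (f : List (List Bool) × List (List Bool) → Option Bool)
    (Γ : SimpleGraph V) : Prop :=
  (∃ v : Fin K → V,
    ∀ x y : V, (∀ i j, common Γ x (v i) (v j) = common Γ y (v i) (v j)) → x = y) ∧
  (∀ (W : Type) [Fintype W] (H : SimpleGraph W), WLEquiv (K + 1) Γ H → Nonempty (Γ ≃g H)) ∧
  (∀ (n : ℕ) (Δ H : SimpleGraph (Fin n)), Nonempty (Δ ≃g Γ) →
    f (adjMatrix Δ, adjMatrix H) ≠ none)

/-- The number of isomorphism types of Cayley graphs of `G` with the property `P`. -/
noncomputable def types (G : Type) [Group G] (P : SimpleGraph G → Prop) : ℕ :=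
  ((fun Γ : SimpleGraph G => {Γ' : SimpleGraph G | Invariant G Γ' ∧ Nonempty (Γ' ≃g Γ)}) ''
    {Γ : SimpleGraph G | Invariant G Γ ∧ P Γ}).ncard

theorem result : ∃ (K : ℕ) (C : ℝ)
    (f : List (List Bool) × List (List Bool) → Option Bool), K ≤ 1632 ∧ Poly f ∧
    (∀ (n : ℕ) (Γ H : SimpleGraph (Fin n)),
      (f (adjMatrix Γ, adjMatrix H) = some true → Nonempty (Γ ≃g H)) ∧
      (f (adjMatrix Γ, adjMatrix H) = some false → ¬ Nonempty (Γ ≃g H))) ∧
    (∀ (G V : Type) [Group G] [Fintype G] [Fintype V] [Nonempty V] [MulAction G V],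
      (∀ (g : G) (v : V), g • v = v → g = 1) →
      ({Γ : SimpleGraph V | Invariant G Γ ∧ ¬ Good K f Γ}.ncard : ℝ) ≤
        C * (2 : ℝ) ^ (-((max (Fintype.card G) (Fintype.card V / Fintype.card G) : ℕ) : ℝ) ^
          (1 / 4 : ℝ)) * ({Γ : SimpleGraph V | Invariant G Γ}.ncard : ℝ)) ∧
    (∀ (G : Type) [Group G] [Fintype G],
      (types G (fun Γ => ¬ Good K f Γ) : ℝ) ≤
        C * (2 : ℝ) ^ (-((Fintype.card G : ℝ) ^ (1 / 4 : ℝ)) / 2) *
          (types G (fun _ => True) : ℝ)) := by
  obtain ⟨t, ht⟩ : ∃ t : ℕ, t = 204 := ⟨_, rfl⟩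
  obtain ⟨C2, h2⟩ := Pool.Agent.K3h40.RC.main_types t ht
  obtain ⟨C1, hC1⟩ : ∃ C1 : ℝ, C1 = (2 : ℝ) ^ ((Pool.Agent.K3h40.RC.NN0 : ℝ) ^ (1 / 4 : ℝ)) :=
    ⟨_, rfl⟩
  have h1 := fun (G V : Type) [Group G] [Fintype G] [Fintype V] [Nonempty V] [MulAction G V]
    (hfree : ∀ (g : G) (v : V), g • v = v → g = 1) =>
    Pool.Agent.K3h40.RC.main_action t ht G V hfree
  rw [← hC1] at h1
  have hgood : ∀ (V : Type) [Fintype V] [Nonempty V] (Γ : SimpleGraph V),
      Pool.Agent.K3h40.RC.Res (t * 8) Γ →
      Good (t * 8) (Pool.Agent.K3h9.GI.alg (t * 8) 0 (4 * 0 + 2)) Γ := by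
    rintro V _ _ Γ ⟨v, hres⟩
    refine ⟨⟨v, hres⟩, ?_, ?_⟩
    · intro W _ H hWL
      exact Pool.Agent.K3h40.RC.iso_of_common Γ H (t * 8) v hres hWL
    · rintro n Δ H ⟨φ⟩
      apply Pool.Agent.K3h40.RC.alg_ne_none Δ H (fun i => φ.symm (v i))
      intro x y hxy
      apply φ.injective
      apply hres
      intro i j
      have := hxy i j
      rw [Pool.Agent.K3h40.RC.common_iso Δ Γ φ x, Pool.Agent.K3h40.RC.common_iso Δ Γ φ y]
        at this
      simpa using this
  refine ⟨t * 8, max C1 C2, Pool.Agent.K3h9.GI.alg (t * 8) 0 (4 * 0 + 2), by omega,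
    Pool.Agent.K3h9.GI.alg_poly _ _ _,
    fun n Γ H => ⟨Pool.Agent.K3h9.GI.alg_true _ _ _, Pool.Agent.K3h9.GI.alg_false _ _⟩, ?_, ?_⟩
  · intro G V _ _ _ _ _ hfree
    have h3 := h1 G V hfree
    have h4 : {Γ : SimpleGraph V | Invariant G Γ ∧
        ¬ Good (t * 8) (Pool.Agent.K3h9.GI.alg (t * 8) 0 (4 * 0 + 2)) Γ}.ncard ≤
        {Γ : SimpleGraph V | Invariant G Γ ∧ ¬ Pool.Agent.K3h40.RC.Res (t * 8) Γ}.ncard := by
      apply Set.ncard_le_ncard _ (Set.toFinite _)
      rintro Γ ⟨hi, hb⟩
      exact ⟨hi, fun hr => hb (hgood V Γ hr)⟩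
    have h5 : ({Γ : SimpleGraph V | Invariant G Γ ∧
        ¬ Good (t * 8) (Pool.Agent.K3h9.GI.alg (t * 8) 0 (4 * 0 + 2)) Γ}.ncard : ℝ) ≤
        ({Γ : SimpleGraph V | Invariant G Γ ∧ ¬ Pool.Agent.K3h40.RC.Res (t * 8) Γ}.ncard : ℝ) := by
      exact_mod_cast h4
    refine h5.trans (le_trans h3 ?_)
    apply mul_le_mul_of_nonneg_right _ (Nat.cast_nonneg _)
    exact mul_le_mul_of_nonneg_right (le_max_left _ _) (Real.rpow_nonneg (by norm_num) _)
  · intro G _ _
    have h3 := h2 G
    have h4 : types G (fun Γ => ¬ Good (t * 8) (Pool.Agent.K3h9.GI.alg (t * 8) 0 (4 * 0 + 2)) Γ) ≤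
        Pool.Agent.K3h40.RC.ntypes G (fun Γ => ¬ Pool.Agent.K3h40.RC.Res (t * 8) Γ) := by
      apply Set.ncard_le_ncard _ (Set.toFinite _)
      apply Set.image_mono
      rintro Γ ⟨hi, hb⟩
      exact ⟨hi, fun hr => hb (hgood G Γ hr)⟩
    have h5 : (types G (fun Γ => ¬ Good (t * 8)
        (Pool.Agent.K3h9.GI.alg (t * 8) 0 (4 * 0 + 2)) Γ) : ℝ) ≤
        (Pool.Agent.K3h40.RC.ntypes G (fun Γ => ¬ Pool.Agent.K3h40.RC.Res (t * 8) Γ) : ℝ) := by
      exact_mod_cast h4
    refine h5.trans (le_trans h3 ?_)
    apply mul_le_mul_of_nonneg_right _ (Nat.cast_nonneg _)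
    exact mul_le_mul_of_nonneg_right (le_max_right _ _) (Real.rpow_nonneg (by norm_num) _)

end Pool.Agent.Results.MP_f1a348_lc.RandomSymmetricGraphs
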