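import Pool.Agent.K3h9.GI.Sm7

/-!
# Smoothed analysis of graph isomorphism with failure probability `n ^ (- C n)`

For every `δ > 0` and every `C` there is a deterministic polynomial-time algorithm `f` (a Turing
machine running in polynomial time on the codes of pairs of adjacency matrices) which for two
graphs on `n` vertices answers `some true`, `some false` or `none`. The answers `some true`
(isomorphic) and `some false` (not isomorphic) are correct for all pairs of graphs. Let `G` be a
random graph on `n` vertices with independent edges whose probabilities `p i j` are arbitrary
numbers in `[δ, 1 - δ]`. For `n ≥ n₀ (δ, C)` the following holds with probability at least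
`1 - n ^ (- C n)`: if an adversary who knows `G` corrupts at most `C log₂ n` vertices (he changes
the pairs which meet a set `S` of at most that many vertices as he likes) and changes at most `C n`
further pairs, then for the resulting graph `G'` and all graphs `H` the answer `f (G', H)` is
not `none`.

With `p = 1 / 2` this is a statement on all but a fraction `n ^ (- C n)` of all graphs, and with
`p i j ∈ {δ, 1 - δ}` it is a statement on the smoothed complexity: an arbitrary graph in which
every pair is changed with probability `δ`. The hand-in `FailureBarrier` shows that a heuristic with
`n ^ ε` instead of `C log₂ n` corrupted vertices, or with failure probability `2 ^ (- n ^ (1 + ε))`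
instead of `n ^ (- C n)`, would put graph isomorphism into `ZPP`.

Outline. Individualise `k` vertices (all `k`-tuples are tried). Label the vertices
by the numbers of neighbours in the `2 ^ k` cells, and then the vertices by the adjacencies to
the vertices with a unique label. If the set `D` of the vertices without a unique second label has
at most `O(log n)` elements for one of the tuples, the isomorphism problem is reduced to
isomorphism of coloured graphs on `D`, which is solved in time `2 ^ O(|D|)` by dynamic programming
over the subsets of `D` with generators of automorphism groups (Schreier's lemma and the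
algorithm of Sims). The probability that all tuples fail is bounded by three resampling arguments
and anticoncentration of sums of independent Bernoulli variables.
-/

set_option autoImplicit false

namespace Pool.Agent.Results.MP_f1a348_lc.SmoothedAnalysis

open Pool.Agent.NPC Pool.Agent.K3h9.GI
open Pool.Agent.NPC.R671 (adjMatrix)

theorem result (δ : ℝ) (hδ : 0 < δ) (hδ2 : δ ≤ 1 / 2) (C : ℕ) :
    ∃ f : List (List Bool) × List (List Bool) → Option Bool, Poly f ∧
    (∀ (n : ℕ) (G H : SimpleGraph (Fin n)),
      (f (adjMatrix G, adjMatrix H) = some true → Nonempty (G ≃g H)) ∧
      (f (adjMatrix G, adjMatrix H) = some false → ¬ Nonempty (G ≃g H))) ∧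
    ∃ n₀ : ℕ, ∀ n ≥ n₀, ∀ p : Fin n → Fin n → ℝ,
      (∀ i j, p i j = p j i ∧ δ ≤ p i j ∧ p i j ≤ 1 - δ) →
      (n : ℝ) ^ (C * n) * ∑ G : SimpleGraph (Fin n),
        {G : SimpleGraph (Fin n) | ∃ (G' H : SimpleGraph (Fin n)) (S : Finset (Fin n)),
          S.card ≤ C * Nat.log 2 n ∧
          {e ∈ (symmDiff G G').edgeSet | ∀ x ∈ e, x ∉ S}.ncard ≤ C * n ∧
          f (adjMatrix G', adjMatrix H) = none}.indicator (wt p) G ≤ 1 :=
  Pool.Agent.K3h9.GI.smooth_main2 δ hδ hδ2 C

end Pool.Agent.Results.MP_f1a348_lc.SmoothedAnalysis
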