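import Pool.Agent.K3h40.RC.TransW
import Pool.Agent.K3h40.RC.Types2

/-!
# Smoothed analysis of graph isomorphism with symmetric noise

There are a number `K ≤ 1632`, a constant `C` and a deterministic polynomial-time algorithm `f`
(a Turing machine running in polynomial time on the codes of pairs of adjacency matrices) such
that the answers `some true` (isomorphic) and `some false` (not isomorphic) of `f` are correct for
all pairs of graphs, and such that the following holds.

Let a finite group `G` act semiregularly (only the identity has fixed points) on a finite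
nonempty set `V`, and put `N = max (|G|, |V| / |G|)` (so `N ≥ |V| ^ (1/2)`). Let `Γ` be a random
graph on `V` invariant under `G`, such that every orbit `O` of `G` on the pairs of different
vertices is independently put into `Γ` with an arbitrary probability `p O` between `δ` and `1 - δ`,
where `δ = N ^ (-1/100) / 2` tends to zero. Then with probability at least
`1 - C * 2 ^ (-N ^ (1/10))` every graph `Γ'` on `V` which differs from `Γ` in at most `N ^ (1/50)`
pairs is good.

Special cases: `p O = 1 - δ` for the orbits in an arbitrary invariant graph `Γ₀` and `p O = δ`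
for the other ones is the graph `Γ₀` perturbed by symmetric noise of rate `δ`; if all `p O` are
equal to `δ`, then this is a sparse random graph with the symmetry group `G`, for `V = G` a random
Cayley graph of `G` with a random connection set of density `δ`; for `|G| = 1` this is the
ordinary smoothed model with vanishing noise.

Here a graph is good if

* it has `K` vertices `v 1, …, v K` such that every vertex `x` is determined by the numbers of
  common neighbours of `x`, `v i` and `v j` (so individualisation of the `K` vertices and two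
  rounds of colour refinement give all vertices different colours);
* the `(K + 1)`-dimensional Weisfeiler-Leman algorithm distinguishes it from every graph which is
  not isomorphic to it;
* the algorithm `f` does not fail on `(Δ, H)` if `Δ` is isomorphic to it, for every graph `H`.

Outline. Every independent bit with a probability in `[δ, 1 - δ]` is a fair coin with probability
`2 δ`, and otherwise a biased one. So the measure is a mixture over the random set `F` of the fair
bits. For a pair of vertices `x ≠ y` and `k` units (pairs of further vertices) there are many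
disjoint groups of sites, each consisting of an orbit of pairs and the at most 20 orbits which
influence the change of the difference of the numbers of common neighbours of `x` and `y`. With
high probability sufficiently many of the sites lie in `F`; then a joint anticoncentration
inequality in windows, conditional on `F` and on the bits outside of `F`, shows that it is very
unlikely that all `k` units separate `x` and `y` by a small amount only. High moments of the number of
units which do not separate `x` and `y` by a large amount then show that with high probability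
boundedly many units separate all pairs `x ≠ y` by more than `4 d`, which is robust against
changing `d` pairs.
-/

set_option autoImplicit false

namespace Pool.Agent.Results.MP_f1a348_lc.SymmetricPerturbations

open Pool.Agent.NPC
open Pool.Agent.NPC.R671 (adjMatrix)
open Pool.Agent.W893.PR (WLEquiv)
open Pool.Agent.K3h40.RC (common)

/-- `Γ` is invariant under the action of `G` on its vertices. For the action of `G` on itself by
left multiplication the invariant graphs are the Cayley graphs of `G`. -/
def Invariant (G : Type) {V : Type} [Group G] [MulAction G V] (Γ : SimpleGraph V) : Prop :=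
  ∀ (g : G) (u w : V), Γ.Adj u w → Γ.Adj (g • u) (g • w)

/-- The orbits of `G` on the set of unordered pairs of different vertices. -/
def PairOrbits (G V : Type) [Group G] [MulAction G V] : Set (Set (Sym2 V)) :=
  {O | ∃ u w : V, u ≠ w ∧ O = {e | ∃ g : G, e = s(g • u, g • w)}}

open Classical in
/-- The probability that the random invariant graph, which contains every orbit `O` of pairs
independently with probability `p O`, belongs to `S`. -/
noncomputable def prob (G : Type) {V : Type} [Group G] [MulAction G V] (p : Set (Sym2 V) → ℝ)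
    (S : Set (SimpleGraph V)) : ℝ :=
  ∑ᶠ Γ ∈ {Γ : SimpleGraph V | Invariant G Γ ∧ Γ ∈ S},
    ∏ᶠ O ∈ PairOrbits G V, if O ⊆ Γ.edgeSet then p O else 1 - p O

/-- The properties of a graph with respect to the number `K` and the algorithm `f`. -/
def Good {V : Type} [Fintype V] (K : ℕ) (f : List (List Bool) × List (List Bool) → Option Bool)
    (Γ : SimpleGraph V) : Prop :=
  (∃ v : Fin K → V,
    ∀ x y : V, (∀ i j, common Γ x (v i) (v j) = common Γ y (v i) (v j)) → x = y) ∧
  (∀ (W : Type) [Fintype W] (H : SimpleGraph W), WLEquiv (K + 1) Γ H → Nonempty (Γ ≃g H)) ∧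
  (∀ (n : ℕ) (Δ H : SimpleGraph (Fin n)), Nonempty (Δ ≃g Γ) →
    f (adjMatrix Δ, adjMatrix H) ≠ none)

theorem result : ∃ (K : ℕ) (C : ℝ)
    (f : List (List Bool) × List (List Bool) → Option Bool), K ≤ 1632 ∧ Poly f ∧
    (∀ (n : ℕ) (Γ H : SimpleGraph (Fin n)),
      (f (adjMatrix Γ, adjMatrix H) = some true → Nonempty (Γ ≃g H)) ∧
      (f (adjMatrix Γ, adjMatrix H) = some false → ¬ Nonempty (Γ ≃g H))) ∧
    (∀ (G V : Type) [Group G] [Fintype G] [Fintype V] [Nonempty V] [MulAction G V],
      (∀ (g : G) (v : V), g • v = v → g = 1) →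
      ∀ N : ℕ, N = max (Fintype.card G) (Fintype.card V / Fintype.card G) →
      ∀ δ : ℝ, δ = (N : ℝ) ^ (-(1 / 100) : ℝ) / 2 →
      ∀ p : Set (Sym2 V) → ℝ, (∀ O ∈ PairOrbits G V, δ ≤ p O ∧ p O ≤ 1 - δ) →
      prob G p {Γ | ∃ Γ' : SimpleGraph V,
          ((symmDiff Γ.edgeSet Γ'.edgeSet).ncard : ℝ) ≤ (N : ℝ) ^ (1 / 50 : ℝ) ∧ ¬ Good K f Γ'} ≤
        C * (2 : ℝ) ^ (-(N : ℝ) ^ (1 / 10 : ℝ))) := by
  obtain ⟨t, ht⟩ : ∃ t : ℕ, t = 204 := ⟨_, rfl⟩
  obtain ⟨C, hC⟩ : ∃ C : ℝ, C = (2 : ℝ) ^ ((Pool.Agent.K3h40.RC.NN1 : ℝ) ^ (1 / 10 : ℝ)) :=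
    ⟨_, rfl⟩
  have h1 := fun (G V : Type) [Group G] [Fintype G] [Fintype V] [Nonempty V] [MulAction G V]
    (hfree : ∀ (g : G) (v : V), g • v = v → g = 1) =>
    Pool.Agent.K3h40.RC.noise_action t ht G V hfree
  rw [← hC] at h1
  have hgood : ∀ (V : Type) [Fintype V] [Nonempty V] (Γ : SimpleGraph V),
      Pool.Agent.K3h40.RC.Res (t * 8) Γ →
      Good (t * 8) (Pool.Agent.K3h9.GI.alg (t * 8) 0 (4 * 0 + 2)) Γ := by
    rintro V _ _ Γ ⟨v, hres⟩
    refine ⟨⟨v, hres⟩, ?_, ?_⟩
    · intro W _ H hWL
      exact Pool.Agent.K3h40.RC.iso_of_common Γ H (t * 8) v hres hWL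
    · rintro n Δ H ⟨φ⟩
      apply Pool.Agent.K3h40.RC.alg_ne_none Δ H (fun i => φ.symm (v i))
      intro x y hxy
      apply φ.injective
      apply hres
      intro i j
      have := hxy i j
      rw [Pool.Agent.K3h40.RC.common_iso Δ Γ φ x, Pool.Agent.K3h40.RC.common_iso Δ Γ φ y]
        at this
      simpa using this
  refine ⟨t * 8, C, Pool.Agent.K3h9.GI.alg (t * 8) 0 (4 * 0 + 2), by omega,
    Pool.Agent.K3h9.GI.alg_poly _ _ _,
    fun n Γ H => ⟨Pool.Agent.K3h9.GI.alg_true _ _ _, Pool.Agent.K3h9.GI.alg_false _ _⟩, ?_⟩
  intro G V _ _ _ _ _ hfree N hN δ hδ p hp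
  have h2 := h1 G V hfree N hN p (by
    intro O hO
    rw [← hδ]
    exact hp O hO)
  refine le_trans ?_ h2
  have hnn : ∀ Γ : SimpleGraph V, 0 ≤ Pool.Agent.K3h40.RC.law G p Γ := by
    intro Γ
    unfold Pool.Agent.K3h40.RC.law
    refine finprod_nonneg fun O => finprod_nonneg fun hO => ?_
    have h3 := hp O hO
    have hN0 : 0 < N := by
      rw [hN]
      exact lt_of_lt_of_le Fintype.card_pos (le_max_left _ _)
    have hN1 : (0 : ℝ) < N := by exact_mod_cast hN0
    have h4 : 0 < δ := by
      rw [hδ]
      have := Real.rpow_pos_of_pos hN1 (-(1 / 100) : ℝ)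
      linarith
    split_ifs <;> linarith [h3.1, h3.2]
  unfold prob
  have e : ∀ S : Set (SimpleGraph V), ∑ᶠ Γ ∈ S, (∏ᶠ O ∈ PairOrbits G V,
      @ite ℝ (O ⊆ Γ.edgeSet) (Classical.propDecidable _) (p O) (1 - p O)) =
      ∑ᶠ Γ ∈ S, Pool.Agent.K3h40.RC.law G p Γ := fun _ => rfl
  rw [e, finsum_mem_eq_finite_toFinset_sum _ (Set.toFinite _),
    finsum_mem_eq_finite_toFinset_sum _ (Set.toFinite _)]
  apply Finset.sum_le_sum_of_subset_of_nonneg
  · intro Γ hΓ
    rw [Set.Finite.mem_toFinset] at hΓ ⊢
    obtain ⟨hi, Γ', hc, hb⟩ := hΓ
    exact ⟨hi, Γ', hc, fun hr => hb (hgood V Γ' hr)⟩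
  · intro Γ _ _
    exact hnn Γ

end Pool.Agent.Results.MP_f1a348_lc.SymmetricPerturbations
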